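import Pool.Agent.Lib.MP_6adaea_nt.U.Full

/-!
The uniform open image theorem for Drinfeld modules without extra endomorphisms.
-/

namespace Pool.Agent.Results.MP_6adaea_nt.UniformOpenImage
open Polynomial Matrix

/-- `e` is an isomorphism of `k[T]`-modules from `(k[T] / a) ^ r` onto the `a`-torsion of `φ`, and
`ρ` is the matrix of the Galois action in these coordinates -/
def IsTorsionRep {k L Ω : Type} [Field k] [Field L] [Field Ω] [Algebra k Ω] [Algebra L Ω]
    (φ : Ω →ₗ[k] Ω) (r : ℕ) (a : k[X]) (e : (Fin r → AdjoinRoot a) →+ Ω)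
    (ρ : (Ω ≃ₐ[L] Ω) →* GL (Fin r) (AdjoinRoot a)) : Prop :=
  Function.Injective e ∧ (∀ y, aeval φ a y = 0 ↔ ∃ v, e v = y) ∧
    (∀ (c : k[X]) v, e (AdjoinRoot.mk a c • v) = aeval φ c (e v)) ∧
    ∀ σ v, σ (e v) = e ((ρ σ).val *ᵥ v)

theorem result (k : Type) [Field k] [Finite k] (L : Type) [Field L] [Algebra k L]
    [Algebra (RatFunc k) L] [IsScalarTower k (RatFunc k) L] [FiniteDimensional (RatFunc k) L]
    (r : ℕ) (hr : 2 ≤ r) :
    ∃ N : ℕ, ∀ (g : ℕ → L) (φ : SeparableClosure L →ₗ[k] SeparableClosure L), g r ≠ 0 →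
      (∀ x, φ x = algebraMap L (SeparableClosure L) (algebraMap (RatFunc k) L RatFunc.X) * x +
        ∑ i ∈ Finset.Icc 1 r, algebraMap L (SeparableClosure L) (g i) * x ^ Nat.card k ^ i) →
      (∀ (m : ℕ) (u : ℕ → SeparableClosure L),
        (∀ x, ∑ i ∈ Finset.range m, u i * φ x ^ Nat.card k ^ i =
          φ (∑ i ∈ Finset.range m, u i * x ^ Nat.card k ^ i)) →
        ∃ b : k[X], ∀ x, ∑ i ∈ Finset.range m, u i * x ^ Nat.card k ^ i = aeval φ b x) →
      ∀ a : k[X], a ≠ 0 → (∃ e ρ, IsTorsionRep (L := L) φ r a e ρ) ∧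
        ∀ e ρ, IsTorsionRep (L := L) φ r a e ρ → 0 < ρ.range.index ∧ ρ.range.index ≤ N := by
  obtain ⟨N, hN⟩ := Pool.Agent.Lib.MP_6adaea_nt.U.thmQ k L (SeparableClosure L) hr
  refine ⟨N, fun g φ hg hφ hE a ha => ⟨?_, fun e ρ h => ⟨?_, ?_⟩⟩⟩
  · have hθ : Transcendental k (algebraMap L (SeparableClosure L)
        (algebraMap (RatFunc k) L RatFunc.X)) :=
      (transcendental_algebraMap_iff (algebraMap L (SeparableClosure L)).injective).2
        ((transcendental_algebraMap_iff (algebraMap (RatFunc k) L).injective).2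
          RatFunc.transcendental_X)
    obtain ⟨E⟩ := Pool.Agent.Lib.MP_6adaea_nt.G.exists_coord
      (g := fun i => algebraMap L (SeparableClosure L) (g i)) hφ (by omega)
      ((_root_.map_ne_zero _).2 hg) hθ ha
    obtain ⟨ρ, hρ⟩ := Pool.Agent.Lib.MP_6adaea_nt.G.exists_rep
      (Pool.Agent.Lib.MP_6adaea_nt.G.aut_comm (L := L) hφ) E
    exact ⟨E.e, ρ, E.inj, E.range, E.smul, hρ⟩
  · have := (AdjoinRoot.powerBasis ha).finite
    have : Finite (AdjoinRoot a) := Module.finite_of_finite k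
    exact Nat.pos_of_ne_zero Subgroup.index_ne_zero_of_finite
  · refine hN g φ hg hφ (fun m u f hf hc => ?_) a ha ⟨e, h.1, h.2.1, h.2.2.1⟩ ρ h.2.2.2
    obtain ⟨b, hb⟩ := hE m u fun x => by rw [← hf, ← hf, hc]
    exact ⟨b, fun x => by rw [hf, hb]⟩

end Pool.Agent.Results.MP_6adaea_nt.UniformOpenImage
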